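import Pool.Agent.Run7.h192.AJ.Defs

/-!
# Hard Lefschetz for homologically trivial cycles: definitions
-/

open CategoryTheory Pool.Agent.H914 Pool.Agent.R903 Pool.Agent.Run7.h192.AJ

universe u v w

namespace Pool.Agent.Run7.h192.HL

/-- `∑ (j - n) π_j`, the sum over `j = 0, …, 2n` -/
def weightSum {A : Type v} [CommRing A] [Algebra ℚ A] (n : ℕ) (π : ℕ → A) : A :=
  ∑ j ∈ Finset.range (2 * n + 1), ((j : ℚ) - n) • π j

/-- `a ^ m * x` -/
def powMul {A : Type v} [CommRing A] (a : A) (m : ℕ) (x : A) : A := a ^ m * x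

/-- `a + b` -/
def addOf {A : Type v} [CommRing A] (a b : A) : A := a + b

variable {k : Type u} [Field k] {𝒱 : VarClass k} {C : ChowTheory.{u, v} 𝒱}

/-- The correspondence from `X` to `X` which acts as multiplication by `D`: the push-forward of `D`
under the diagonal. -/
noncomputable def mulC (C : ChowTheory.{u, v} 𝒱) {X : 𝒱.Obj} (D : C.CH X) : C.CH (X.prod X) :=
  C.push (VarClass.Obj.diag X) D

/-- The correspondence of degree zero which is multiplication by `j - dim X` on `h^j(X)`. -/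
noncomputable def weightC (C : ChowTheory.{u, v} 𝒱) {X : 𝒱.Obj} (π : ℕ → C.CH (X.prod X)) :
    C.CH (X.prod X) :=
  weightSum X.dim π

/-- The relation `β ∘ α - α ∘ β = γ` of correspondences (`C.comp α β` is `β ∘ α`). -/
def IsBracket (C : ChowTheory.{u, v} 𝒱) {X : 𝒱.Obj} (α β γ : C.CH (X.prod X)) : Prop :=
  C.comp α β = addOf (C.comp β α) γ

/-- `γ` maps `x` to zero. -/
def Kills (C : ChowTheory.{u, v} 𝒱) {X Y : 𝒱.Obj} (γ : C.CH (X.prod Y)) (x : C.CH X) : Prop :=
  C.act γ x = 0

/-- The divisor class `D`, the correspondence `Λ` of codimension `dim X - 1` and the Chow–Künneth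
decomposition `π` form a Lefschetz triple of the Chow motive of `X`: with `L` the multiplication by
`D` and `H` the multiplication by `j - dim X` on `h^j(X)`, the relations `[H, L] = 2 L`,
`[Λ, H] = 2 Λ` and `[L, Λ] = H` of `sl₂` hold for the correspondences. For
abelian varieties, symmetric ample `D` and the canonical `π` there is such a `Λ`, by a theorem of
Künnemann. -/
structure LefschetzTriple (W : WeilTheory.{u, v, w} C) {X : 𝒱.Obj} (D : C.CH X)
    (Λ : C.CH (X.prod X)) (π : ℕ → C.CH (X.prod X)) : Prop where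
  ck : W.IsCK X π
  divisor : Codim C 1 D
  codim : Codim C (X.dim - 1) Λ
  point : X.dim = 0 → Λ = 0
  up0 : IsBracket C (mulC C D) (weightC C π) (addOf (mulC C D) (mulC C D))
  down0 : IsBracket C (weightC C π) Λ (addOf Λ Λ)
  rel0 : IsBracket C Λ (mulC C D) (weightC C π)

/-- `D ^ (n + 1 - 2i)` is injective on the homologically trivial classes of codimension `i`,
`n = dim X`. -/
def LefInjective (W : WeilTheory.{u, v, w} C) {X : 𝒱.Obj} (D : C.CH X) (i : ℕ) : Prop :=
  ∀ x : C.CH X, HomTriv W i x → powMul D (X.dim + 1 - 2 * i) x = 0 → x = 0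

/-- `D ^ (n + 1 - 2i)` maps the homologically trivial classes of codimension `i` onto those of
codimension `n + 1 - i`, `n = dim X`. -/
def LefSurjective (W : WeilTheory.{u, v, w} C) {X : 𝒱.Obj} (D : C.CH X) (i : ℕ) : Prop :=
  ∀ y : C.CH X, HomTriv W (X.dim + 1 - i) y →
    ∃ x : C.CH X, HomTriv W i x ∧ powMul D (X.dim + 1 - 2 * i) x = y

/-- Q1 for the variety `X` and the divisor class `D`: `D ^ (n + 1 - 2i)` is an isomorphism between
the homologically trivial classes of codimension `i` and `n + 1 - i`, for all `i ≤ (n + 1) / 2`. -/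
def BeilinsonLefschetz (W : WeilTheory.{u, v, w} C) {X : 𝒱.Obj} (D : C.CH X) : Prop :=
  ∀ i, 2 * i ≤ X.dim + 1 → LefInjective W D i ∧ LefSurjective W D i

/-- `D ⊞ E`, the sum of the pull-backs of `D` and `E` to the product. -/
noncomputable def sumDiv (C : ChowTheory.{u, v} 𝒱) {X Y : 𝒱.Obj} (D : C.CH X) (E : C.CH Y) :
    C.CH (X.prod Y) :=
  addOf (C.pull (VarClass.Obj.fst X Y) D) (C.pull (VarClass.Obj.snd X Y) E)

/-- A class of pairs of a variety `X` and a divisor class `D`, each of which belongs to a Lefschetz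
triple, which is closed under products. -/
structure PairClass (W : WeilTheory.{u, v, w} C) where
  /-- the members -/
  mem : ∀ X : 𝒱.Obj, C.CH X → Prop
  triple : ∀ (X : 𝒱.Obj) (D : C.CH X), mem X D → ∃ Λ π, LefschetzTriple W D Λ π
  prod : ∀ (X Y : 𝒱.Obj) (D : C.CH X) (E : C.CH Y), mem X D → mem Y E →
    mem (X.prod Y) (sumDiv C D E)

/-- `CH^i(h^j(X)) = 0` for `j > 2i`, and `CH^i(h^(2i)(X))` contains no homologically trivial class:
the first half of Murre's conjecture (B), and conjecture (D). -/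
def NoUpper (W : WeilTheory.{u, v, w} C) {X : 𝒱.Obj} (π : ℕ → C.CH (X.prod X)) : Prop :=
  ∀ i j x, Codim C i x → (2 * i < j ∨ (j = 2 * i ∧ HomTriv W i x)) → Kills C (π j) x

/-- `CH^i(h^j(X)) = 0` for `j < 2i - 1`. -/
def NoLower (C : ChowTheory.{u, v} 𝒱) {X : 𝒱.Obj} (π : ℕ → C.CH (X.prod X)) : Prop :=
  ∀ i j x, Codim C i x → j + 1 < 2 * i → Kills C (π j) x

end Pool.Agent.Run7.h192.HL
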