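import Pool.Agent.Run7.h192.HL.Sl2

/-!
# Vanishing above the diagonal from injectivity
-/

set_option autoImplicit false

namespace Pool.Agent.Run7.h192.HL

variable {V : Type*} [AddCommGroup V] [Module ℚ V] {A : ℤ → ℤ → Submodule ℚ V} {e f : V →ₗ[ℚ] V}
  {n : ℕ}

theorem Sl2.noUpperC (h : Sl2 A e f n) (c : ℕ) (N : ℤ)
    (hI : ∀ i w x, i ≤ N → x ∈ A i w → ∀ m : ℕ, (m : ℤ) = n + c - 2 * i →
      (e ^ m) x = 0 → x = 0) (i w : ℤ) (hi : i ≤ N) (hw : 2 * i < w + n + c) : A i w = ⊥ := by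
  have key : ∀ (t : ℕ) (i w : ℤ) (x : V), w + n < t → i ≤ N → 2 * i < w + n + c → x ∈ A i w →
      x = 0 := by
    intro t
    induction t with
    | zero =>
      intro i w x h1 _ _ hx
      rw [h.bot i w (Or.inr (by push_cast at h1; omega)), Submodule.mem_bot] at hx
      exact hx
    | succ t ih =>
      intro i w x h1 hiN h2 hx
      have h3 : f x = 0 := ih (i - 1) (w - 2) (f x) (by push_cast at h1; omega) (by omega)
        (by omega) (h.down _ _ _ hx)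
      obtain ⟨h4, h5⟩ := h.lowest hx h3
      rcases lt_or_ge 0 w with hw | hw
      · exact h4 hw
      obtain ⟨k, rfl⟩ : ∃ k : ℕ, w = -k := ⟨(-w).toNat, by omega⟩
      obtain ⟨m, hm⟩ : ∃ m : ℕ, (m : ℤ) = n + c - 2 * i := ⟨(n + c - 2 * i).toNat, by omega⟩
      refine hI i _ x hiN hx m hm ?_
      obtain ⟨d, rfl⟩ : ∃ d : ℕ, m = d + (k + 1) := ⟨m - (k + 1), by omega⟩
      rw [pow_add, Module.End.mul_apply, h5 k rfl, map_zero]
  rw [Submodule.eq_bot_iff]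
  intro x hx
  rcases lt_or_ge (w + n) 0 with h1 | h1
  · rw [h.bot i w (Or.inr (by omega)), Submodule.mem_bot] at hx
    exact hx
  · exact key ((w + n).toNat + 1) i w x (by omega) hi hw hx

/-- small codimensions suffice -/
theorem Sl2.noUpper_all (h : Sl2 A e f n) (c : ℕ)
    (h0 : ∀ i w : ℤ, 2 * i ≤ n + c → 2 * i < w + n + c → A i w = ⊥) (i w : ℤ)
    (hw : 2 * i < w + n + c) : A i w = ⊥ := by
  rcases le_or_gt w 0 with h1 | h1
  · exact h0 i w (by omega) hw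
  · rw [Submodule.eq_bot_iff]
    intro x hx
    obtain ⟨k, rfl⟩ : ∃ k : ℕ, w = k := ⟨w.toNat, by omega⟩
    obtain ⟨z, hz, hzx⟩ := h.surj hx
    rw [h0 (i - k) (-k) (by omega) (by omega), Submodule.mem_bot] at hz
    rw [← hzx, hz, map_zero]

theorem Sl2.inj_ofC (h : Sl2 A e f n) (c : ℕ) {i w : ℤ}
    (h0 : 2 * i < w + n + c → A i w = ⊥) {x : V}
    (hx : x ∈ A i w) {m : ℕ} (hm : (m : ℤ) = n + c - 2 * i) (h1 : (e ^ m) x = 0) : x = 0 := by
  rcases lt_or_ge (2 * i) (w + n + c) with h2 | h2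
  · rw [h0 h2, Submodule.mem_bot] at hx
    exact hx
  obtain ⟨k, rfl⟩ : ∃ k : ℕ, w = -k := ⟨(-w).toNat, by omega⟩
  refine h.inj hx ?_
  obtain ⟨d, rfl⟩ : ∃ d : ℕ, k = d + m := ⟨k - m, by omega⟩
  rw [pow_add, Module.End.mul_apply, h1, map_zero]

/-- vanishing below the line -/
theorem Sl2.noSecond (h : Sl2 A e f n) (hg : ∀ i w : ℤ, (n : ℤ) < i → A i w = ⊥) (i w : ℤ)
    (hw : w + n < i) : A i w = ⊥ := by
  rw [Submodule.eq_bot_iff]
  intro x hx
  rcases lt_or_ge (n : ℤ) i with h1 | h1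
  · rw [hg i w h1, Submodule.mem_bot] at hx
    exact hx
  obtain ⟨k, rfl⟩ : ∃ k : ℕ, w = -k := ⟨(-w).toNat, by omega⟩
  refine h.inj hx ?_
  have h2 := h.pow_mem hx k
  rw [hg _ _ (by omega), Submodule.mem_bot] at h2
  exact h2

end Pool.Agent.Run7.h192.HL
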