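import Pool.Agent.Run7.h192.HL.Indep
import Pool.Agent.Run7.h192.HL.SlC

/-!
# Hard Lefschetz for stable families of classes
-/

set_option autoImplicit false

open CategoryTheory CategoryTheory.Limits AlgebraicGeometry Finset
open Pool.Agent.H914 Pool.Agent.H914.VarClass Pool.Agent.H914.VarClass.Obj Pool.Agent.R903
open Pool.Agent.R903.ChowTheory Pool.Agent.R903.WeilTheory Pool.Agent.Run7.h192.Murre
open Pool.Agent.Run7.h192.AJ

universe u v w

namespace Pool.Agent.Run7.h192.HL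

variable {k : Type u} [Field k] {𝒱 : VarClass k} {C : ChowTheory.{u, v} 𝒱}
  {W : WeilTheory.{u, v, w} C} {X Y Z : 𝒱.Obj} {D : C.CH X} {Λ : C.CH (X.prod X)}
  {π π' : ℕ → C.CH (X.prod X)} {S : ℕ → Submodule ℚ (C.CH X)}

/-- classes of codimension `i`, for all `i`, stable under the operators -/
structure StableSys (C : ChowTheory.{u, v} 𝒱) {X : 𝒱.Obj} (D : C.CH X) (Λ : C.CH (X.prod X))
    (S : ℕ → Submodule ℚ (C.CH X)) : Prop where
  le : ∀ i, S i ≤ C.gr X i
  mul : ∀ i x, x ∈ S i → D * x ∈ S (i + 1)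
  act0 : ∀ γ, Codim C X.dim γ → ∀ i x, x ∈ S i → C.act γ x ∈ S i
  down : X.dim ≠ 0 → ∀ i x, x ∈ S (i + 1) → C.act Λ x ∈ S i

lemma stable_gr (h : LefschetzTriple W D Λ π) : StableSys C D Λ (C.gr X) where
  le _ := le_rfl
  mul i x hx := by
    have h1 := C.mul_mem h.divisor hx
    rwa [add_comm] at h1
  act0 γ hγ i x hx := C.act_mem hγ hx rfl
  down hd i x hx := C.act_mem h.codim hx (by omega)

lemma stable_hom (h : LefschetzTriple W D Λ π) : StableSys C D Λ (homSub W X) where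
  le i x hx := hx.1
  mul i x hx := homTriv_mul h.divisor hx
  act0 γ hγ i x hx := HomTriv.act (shifts_zero hγ i) hx
  down hd i x hx := HomTriv.act ⟨X.dim - 1, by omega, h.codim⟩ hx

open Classical in
/-- the part of `S i` in `h^(w + n)(X)` -/
noncomputable def famS (C : ChowTheory.{u, v} 𝒱) {X : 𝒱.Obj} (S : ℕ → Submodule ℚ (C.CH X))
    (π : ℕ → C.CH (X.prod X)) (i w : ℤ) : Submodule ℚ (C.CH X) :=
  if 0 ≤ i ∧ 0 ≤ w + X.dim then S i.toNat ⊓ fixSub C (π (w + X.dim).toNat) else ⊥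

lemma mem_famS {i j : ℕ} {x : C.CH X} :
    x ∈ famS C S π i ((j : ℤ) - X.dim) ↔ x ∈ S i ∧ C.act (π j) x = x := by
  have h1 : (0 : ℤ) ≤ i ∧ (0 : ℤ) ≤ (j : ℤ) - X.dim + X.dim := by omega
  have h2 : ((j : ℤ) - X.dim + X.dim).toNat = j := by omega
  rw [famS, if_pos h1, h2, Int.toNat_natCast]
  rfl

lemma famS_cases {i w : ℤ} {x : C.CH X} (hx : x ∈ famS C S π i w) :
    x = 0 ∨ ∃ a j : ℕ, i = a ∧ w = (j : ℤ) - X.dim ∧ x ∈ S a ∧ C.act (π j) x = x := by
  by_cases h : 0 ≤ i ∧ 0 ≤ w + X.dim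
  · refine Or.inr ⟨i.toNat, (w + X.dim).toNat, by omega, by omega, ?_⟩
    rw [famS, if_pos h] at hx
    exact hx
  · rw [famS, if_neg h, Submodule.mem_bot] at hx
    exact Or.inl hx

theorem LefschetzTriple.sl2S (h : LefschetzTriple W D Λ π) (hS : StableSys C D Λ S) :
    Sl2 (famS C S π) (LinearMap.mulLeft ℚ D) (C.act Λ) X.dim where
  up i w x hx := by
    rw [LinearMap.mulLeft_apply]
    rcases famS_cases hx with rfl | ⟨a, j, rfl, rfl, h1, h2⟩
    · rw [mul_zero]; exact Submodule.zero_mem _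
    · have e1 : (a : ℤ) + 1 = ((a + 1 : ℕ) : ℤ) := by push_cast; ring
      have e2 : (j : ℤ) - X.dim + 2 = ((j + 2 : ℕ) : ℤ) - X.dim := by push_cast; ring
      rw [e1, e2, mem_famS]
      exact ⟨hS.mul _ _ h1, by rw [h.act_mul, h2]⟩
  down i w x hx := by
    rcases famS_cases hx with rfl | ⟨a, j, rfl, rfl, h1, h2⟩
    · rw [map_zero]; exact Submodule.zero_mem _
    · by_cases hj : j < 2
      · rw [← h2, ← C.act_comp, h.low' j hj, C.act_zero, LinearMap.zero_apply]
        exact Submodule.zero_mem _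
      obtain ⟨j, rfl⟩ : ∃ l, j = l + 2 := ⟨j - 2, by omega⟩
      by_cases hd : X.dim = 0
      · rw [h.point hd, C.act_zero, LinearMap.zero_apply]
        exact Submodule.zero_mem _
      by_cases ha : a = 0
      · subst ha
        rw [C.act_eq_zero h.codim (hS.le _ h1) (by omega)]
        exact Submodule.zero_mem _
      obtain ⟨a, rfl⟩ : ∃ l, a = l + 1 := ⟨a - 1, by omega⟩
      have e1 : ((a + 1 : ℕ) : ℤ) - 1 = (a : ℤ) := by push_cast; ring
      have e2 : ((j + 2 : ℕ) : ℤ) - X.dim - 2 = (j : ℤ) - X.dim := by push_cast; ring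
      rw [e1, e2, mem_famS]
      refine ⟨hS.down hd _ _ h1, ?_⟩
      rw [← C.act_comp, ← h.down', C.act_comp, h2]
  rel i w x hx := by
    rw [LinearMap.mulLeft_apply, LinearMap.mulLeft_apply]
    rcases famS_cases hx with rfl | ⟨a, j, rfl, rfl, h1, h2⟩
    · simp
    · rw [← act_mulC, ← act_mulC, ← C.act_comp, ← C.act_comp, ← LinearMap.sub_apply, ← C.act_sub,
        h.rel, weightC_eq, act_sum_apply]
      by_cases hj : j < 2 * X.dim + 1
      · rw [Finset.sum_eq_single j]
        · rw [C.act_smul, LinearMap.smul_apply, h2]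
          push_cast
          rfl
        · intro l _ hl
          rw [C.act_smul, LinearMap.smul_apply, ← h2, h.ck.act_act, if_neg hl, smul_zero]
        · intro hl
          exact absurd (Finset.mem_range.2 hj) hl
      · have h3 : x = 0 := by rw [← h2, h.ck.eq_zero (by omega), C.act_zero, LinearMap.zero_apply]
        rw [h3]
        simp
  bot i w hw := by
    rw [Submodule.eq_bot_iff]
    intro x hx
    rcases famS_cases hx with rfl | ⟨a, j, rfl, rfl, h1, h2⟩
    · rfl
    · rw [← h2, h.ck.eq_zero (by omega), C.act_zero, LinearMap.zero_apply]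

lemma LefschetzTriple.comp_mem (h : LefschetzTriple W D Λ π) (hS : StableSys C D Λ S) {i : ℕ}
    {x : C.CH X} (hx : x ∈ S i) (j : ℕ) : C.act (π j) x ∈ famS C S π i ((j : ℤ) - X.dim) :=
  mem_famS.2 ⟨hS.act0 _ (h.ck.mem j) _ _ hx, by rw [h.ck.act_act, if_pos rfl]⟩

/-- `D ^ (n + c - 2 i)` is injective on `S i` for `i ≤ N` if and only if the parts of `S i` in
`h^j(X)`, `j > 2 i - c`, are zero for `i ≤ N`. -/
theorem LefschetzTriple.injS_iff (h : LefschetzTriple W D Λ π) (hS : StableSys C D Λ S) (c N : ℕ)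
    (hN : 2 * N ≤ X.dim + c) :
    (∀ i ≤ N, ∀ x ∈ S i, D ^ (X.dim + c - 2 * i) * x = 0 → x = 0) ↔
      ∀ i ≤ N, ∀ j, 2 * i < j + c → ∀ x ∈ S i, C.act (π j) x = 0 := by
  constructor
  · intro hI i hi j hj x hx
    have h1 := (h.sl2S hS).noUpperC c N (fun a w y ha hy m hm h0 => by
      rcases famS_cases hy with rfl | ⟨b, l, rfl, rfl, h1, h2⟩
      · rfl
      · rw [mulLeft_pow_apply] at h0
        refine hI b (by omega) y h1 ?_
        have e1 : X.dim + c - 2 * b = m := by omega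
        rw [e1, h0]) i ((j : ℤ) - X.dim) (by omega) (by omega)
    have h2 := h.comp_mem hS hx j
    rwa [h1, Submodule.mem_bot] at h2
  · intro h0 i hi x hx h1
    rw [← h.ck.sum_act x]
    refine Finset.sum_eq_zero fun j _ => ?_
    have h2 := h.comp_mem hS hx j
    refine (h.sl2S hS).inj_ofC c (fun h3 => ?_) h2 (m := X.dim + c - 2 * i) (by omega) ?_
    · rw [Submodule.eq_bot_iff]
      intro y hy
      rw [mem_famS] at hy
      rw [← hy.2]
      exact h0 i hi j (by omega) y hy.1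
    · rw [mulLeft_pow_apply, ← h.act_pow, h1, map_zero]

/-- For all codimensions. -/
theorem LefschetzTriple.injS_all (h : LefschetzTriple W D Λ π) (hS : StableSys C D Λ S) (c : ℕ) :
    (∀ i, 2 * i ≤ X.dim + c → ∀ x ∈ S i, D ^ (X.dim + c - 2 * i) * x = 0 → x = 0) ↔
      ∀ i j, 2 * i < j + c → ∀ x ∈ S i, C.act (π j) x = 0 := by
  constructor
  · intro hI i j hj x hx
    have h1 := (h.injS_iff hS c ((X.dim + c) / 2) (by omega)).1 (fun i hi => hI i (by omega))
    have h2 : famS C S π i ((j : ℤ) - X.dim) = ⊥ := by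
      refine (h.sl2S hS).noUpper_all c (fun a w ha haw => ?_) _ _ (by omega)
      rw [Submodule.eq_bot_iff]
      intro y hy
      rcases famS_cases hy with rfl | ⟨b, l, rfl, rfl, h3, h4⟩
      · rfl
      · rw [← h4]
        exact h1 b (by omega) l (by omega) y h3
    have h3 := h.comp_mem hS hx j
    rwa [h2, Submodule.mem_bot] at h3
  · intro h0 i hi
    exact (h.injS_iff hS c i hi).2 (fun a _ j hj x hx => h0 a j hj x hx) i le_rfl

/-- `CH^i(h^j(X)) = 0` for `j < i`. -/
theorem LefschetzTriple.second (h : LefschetzTriple W D Λ π) {i j : ℕ} (hij : j < i) {x : C.CH X}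
    (hx : x ∈ C.gr X i) : C.act (π j) x = 0 := by
  have h1 := h.comp_mem (stable_gr h) hx j
  rw [(h.sl2S (stable_gr h)).noSecond (fun a w ha => ?_) _ _ (by omega), Submodule.mem_bot] at h1
  · exact h1
  · rw [Submodule.eq_bot_iff]
    intro y hy
    rcases famS_cases hy with rfl | ⟨b, l, rfl, rfl, h3, h4⟩
    · rfl
    · rwa [C.gr_eq_bot X b (by omega), Submodule.mem_bot] at h3

theorem LefschetzTriple.ckFil_second (h : LefschetzTriple W D Λ π) (i : ℕ) :
    C.ckFil π i (i + 1) = ⊥ := by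
  rw [Submodule.eq_bot_iff]
  intro x hx
  rw [mem_ckFil h.ck] at hx
  rw [← h.ck.sum_act x]
  refine Finset.sum_eq_zero fun j _ => ?_
  rcases lt_or_ge j i with hj | hj
  · exact h.second hj hx.1
  · exact hx.2 j (by omega)

/-- the homologically trivial classes of codimension `i` -/
lemma ckFil_one_iff (h : W.IsCK X π) (i : ℕ) : C.ckFil π i 1 = homSub W X i ↔
    ∀ j, 2 * i < j + 1 → ∀ x ∈ homSub W X i, C.act (π j) x = 0 := by
  constructor
  · intro h1 j hj x hx
    rw [← h1, mem_ckFil h] at hx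
    exact hx.2 j (by omega)
  · intro h1
    ext x
    rw [mem_ckFil h]
    constructor
    · rintro ⟨hx, h2⟩
      refine ⟨hx, ?_⟩
      rw [← h.sum_act x, map_sum]
      refine Finset.sum_eq_zero fun j _ => ?_
      rw [W.cl_act, h.proj j _ _ (W.cl_mem hx)]
      split_ifs with h3
      · have h4 := h2 j (by omega)
        have h5 : W.cl X (C.act (π j) x) = 0 := by rw [h4, map_zero]
        rwa [W.cl_act, h.proj j _ _ (W.cl_mem hx), if_pos h3] at h5
      · rfl
    · intro hx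
      exact ⟨hx.1, fun j hj => h1 j (by omega) x hx⟩

lemma ckFil_zero_of_one (h : W.IsCK X π) {i : ℕ} (h1 : C.ckFil π i 1 = homSub W X i) :
    C.ckFil π i 0 = C.gr X i := by
  rw [ckFil_zero_eq_iff h]
  intro j hj x hx
  have h2 : C.act (π j) x ∈ homSub W X i := by
    refine ⟨C.act_mem (h.mem j) hx rfl, ?_⟩
    rw [W.cl_act, h.proj j _ _ (W.cl_mem hx), if_neg (by omega)]
  rw [← h1, mem_ckFil h] at h2
  have h3 := h2.2 j (by omega)
  rwa [h.act_act, if_pos rfl] at h3

end Pool.Agent.Run7.h192.HL
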