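import Pool.Agent.Run7.h192.HL.Prod

/-!
# Independence of the Chow–Künneth decomposition and of the divisor class
-/

set_option autoImplicit false

open CategoryTheory CategoryTheory.Limits AlgebraicGeometry Finset
open Pool.Agent.H914 Pool.Agent.H914.VarClass Pool.Agent.H914.VarClass.Obj Pool.Agent.R903
open Pool.Agent.R903.ChowTheory Pool.Agent.R903.WeilTheory Pool.Agent.Run7.h192.Murre
open Pool.Agent.Run7.h192.AJ

universe u v w

namespace Pool.Agent.Run7.h192.HL

variable {k : Type u} [Field k] {𝒱 : VarClass k} {C : ChowTheory.{u, v} 𝒱}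
  {W : WeilTheory.{u, v, w} C} {X Y Z : 𝒱.Obj} {D : C.CH X} {Λ : C.CH (X.prod X)}
  {π π' : ℕ → C.CH (X.prod X)}

lemma homTriv_comp' {γ δ : C.CH (X.prod X)} (hγ : HomTriv W X.dim γ) (hδ : Codim C X.dim δ) :
    HomTriv W X.dim (C.comp γ δ) := by
  refine ⟨comp_mem0 hγ.1 hδ, cl_eq_zero_of_act W ?_⟩
  apply LinearMap.ext
  intro a
  rw [act_comp0 hδ, act_eq_zero_of_cl W hγ.2, LinearMap.zero_apply, map_zero]

lemma homTriv_sub_ck (h : W.IsCK X π) (h' : W.IsCK X π') (a : ℕ) :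
    HomTriv W X.dim (π' a - π a) := by
  refine ⟨Submodule.sub_mem _ (h'.mem a) (h.mem a), ?_⟩
  apply cl_eq_zero_of_act W
  rw [W.act_sub, sub_eq_zero]
  apply LinearMap.ext
  intro x
  refine gr_induction (W.isInternal X) (p := fun x =>
    W.act (π' a) x = W.act (π a) x) ?_ ?_ x
  · intro l x hx
    rw [h.proj a l x hx, h'.proj a l x hx]
  · intro x y hx hy
    rw [map_add, map_add, hx, hy]

theorem lengthOne_indep (h : W.IsCK X π) (h' : W.IsCK X π') (h1 : LengthOne W π) :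
    LengthOne W π' := by
  have hs := squareZero_of_lengthOne h h1
  have hψ : ∀ a, HomTriv W X.dim (π' a - π a) := homTriv_sub_ck h h'
  have hid : ∀ a, π' a - π a =
      C.comp (π a) (π' a - π a) + C.comp (π' a - π a) (π a) := by
    intro a
    have h2 : C.comp (π' a - π a) (π' a - π a) = 0 := hs _ _ (hψ a) (hψ a)
    have h3 : C.comp (π' a - π a) (π' a - π a) = π' a - C.comp (π a) (π' a) -
        (C.comp (π' a) (π a) - π a) := by
      rw [comp_sub', sub_comp', sub_comp', h.idem, h'.idem]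
    rw [h3] at h2
    rw [comp_sub', sub_comp', h.idem]
    have h4 : π' a = C.comp (π a) (π' a) + (C.comp (π' a) (π a) - π a) := by
      rw [← sub_eq_zero, ← h2]
      abel
    calc π' a - π a = (C.comp (π a) (π' a) + (C.comp (π' a) (π a) - π a)) - π a := by rw [← h4]
      _ = _ := by abel
  intro a b γ hγ h2 h3
  have z1 : C.comp (C.comp (π a) γ) (π b) = 0 := h1 a b γ hγ h2 h3
  have z4 : C.comp (C.comp (π' a - π a) γ) (π' b - π b) = 0 :=
    hs _ _ (homTriv_comp' (hψ a) hγ) (hψ b)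
  have z2 : C.comp (C.comp (π' a - π a) γ) (π b) = 0 := by
    rw [hid a, C.add_comp, C.add_comp]
    have e1 : C.comp (C.comp (C.comp (π a) (π' a - π a)) γ) (π b) =
        block C π a b (C.comp (π' a - π a) γ) := by
      rw [block, C.comp_assoc (π a) (π' a - π a) γ]
    have e2 : C.comp (C.comp (C.comp (π' a - π a) (π a)) γ) (π b) =
        C.comp (π' a - π a) (C.comp (C.comp (π a) γ) (π b)) := by
      rw [C.comp_assoc (π' a - π a) (π a) γ, C.comp_assoc (π' a - π a)]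
    rw [e1, e2, z1, C.comp_zero, add_zero]
    have h4 := homTriv_comp' (hψ a) hγ
    exact h1 a b _ h4.1 (Or.inr h4) h3
  have z3 : C.comp (C.comp (π a) γ) (π' b - π b) = 0 := by
    rw [hid b, C.comp_add]
    have e1 : C.comp (C.comp (π a) γ) (C.comp (π b) (π' b - π b)) =
        C.comp (C.comp (C.comp (π a) γ) (π b)) (π' b - π b) := by
      rw [← C.comp_assoc (C.comp (π a) γ)]
    have e2 : C.comp (C.comp (π a) γ) (C.comp (π' b - π b) (π b)) =
        block C π a b (C.comp γ (π' b - π b)) := by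
      rw [block, ← C.comp_assoc (C.comp (π a) γ), C.comp_assoc (π a) γ]
    rw [e1, e2, z1, C.zero_comp, zero_add]
    have h4 : HomTriv W X.dim (C.comp γ (π' b - π b)) := homTriv_comp hγ (hψ b) rfl
    exact h1 a b _ h4.1 (Or.inr h4) h3
  have e : block C π' a b γ = C.comp (C.comp (π a) γ) (π b) +
      C.comp (C.comp (π a) γ) (π' b - π b) + C.comp (C.comp (π' a - π a) γ) (π b) +
      C.comp (C.comp (π' a - π a) γ) (π' b - π b) := by
    rw [block]
    simp only [comp_sub', sub_comp']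
    abel
  rw [e, z1, z2, z3, z4, add_zero, add_zero, add_zero]

/-- For one variety. -/
theorem LefschetzTriple.main (h : LefschetzTriple W D Λ π) :
    ((∀ i, 2 * i ≤ X.dim + 1 → LefInjective W D i) ↔ NoUpper W π) ∧
    ((∀ i, 2 * i ≤ X.dim + 1 → LefSurjective W D i) ↔ NoLower C π) ∧
    (BeilinsonLefschetz W D ↔ NoUpper W π ∧ NoLower C π) :=
  ⟨h.injective_tfae, h.surjective_tfae, h.lefschetz_iff.trans twoSteps_iff⟩

/-- From the square of the variety. -/
theorem LefschetzTriple.square (hP : C.Polarized) (h : LefschetzTriple W D Λ π)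
    (hQ : BeilinsonLefschetz W (sumDiv C D D)) :
    SquareZero W X ∧ (∀ π', W.IsCK X π' → LengthOne W π' ∧ NoUpper W π' ∧ NoLower C π') ∧
      ∀ D' Λ' π', LefschetzTriple W (X := X) D' Λ' π' → BeilinsonLefschetz W D' := by
  have h1 : LengthOne W π :=
    lengthOne_of_twoSteps h.ck ((h.transp.prod h).lefschetz_iff.1 hQ)
  have h2 : ∀ π', W.IsCK X π' → LengthOne W π' := fun π' h' => lengthOne_indep h.ck h' h1
  have h3 : ∀ π', W.IsCK X π' → TwoSteps W π' := fun π' h' =>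
    twoSteps_of_lengthOne hP h' (h2 π' h')
  exact ⟨squareZero_of_lengthOne h.ck h1, fun π' h' => ⟨h2 π' h', twoSteps_iff.1 (h3 π' h')⟩,
    fun D' Λ' π' h' => h'.lefschetz_iff.2 (h3 π' h'.ck)⟩

theorem LefschetzTriple.exists_prod {E : C.CH Y} {M : C.CH (Y.prod Y)} {ρ : ℕ → C.CH (Y.prod Y)}
    (h : LefschetzTriple W D Λ π) (h' : LefschetzTriple W E M ρ) :
    ∃ N σ, LefschetzTriple W (sumDiv C D E) N σ :=
  ⟨_, _, h.prod h'⟩

/-- For a class of pairs. -/
theorem PairClass.tfae (hP : C.Polarized) (𝒯 : PairClass W) :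
    [∀ (X : 𝒱.Obj) (D : C.CH X), 𝒯.mem X D → BeilinsonLefschetz W D,
      ∀ (X : 𝒱.Obj) (D : C.CH X), 𝒯.mem X D → ∀ π, W.IsCK X π → NoUpper W π ∧ NoLower C π,
      ∀ (X : 𝒱.Obj) (D : C.CH X), 𝒯.mem X D → ∀ π, W.IsCK X π → LengthOne W π,
      ∀ (X : 𝒱.Obj) (D : C.CH X), 𝒯.mem X D → ∃ π, W.IsCK X π ∧ LengthOne W π].TFAE := by
  tfae_have 1 → 3 := by
    intro h X D hm π hπ
    obtain ⟨Λ, ρ, ht⟩ := 𝒯.triple X D hm
    exact ((ht.square hP (h _ _ (𝒯.prod X X D D hm hm))).2.1 π hπ).1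
  tfae_have 3 → 4 := by
    intro h X D hm
    obtain ⟨Λ, ρ, ht⟩ := 𝒯.triple X D hm
    exact ⟨ρ, ht.ck, h X D hm ρ ht.ck⟩
  tfae_have 4 → 2 := by
    intro h X D hm π hπ
    obtain ⟨ρ, hρ, h1⟩ := h X D hm
    exact twoSteps_iff.1 (twoSteps_of_lengthOne hP hπ (lengthOne_indep hρ hπ h1))
  tfae_have 2 → 1 := by
    intro h X D hm
    obtain ⟨Λ, ρ, ht⟩ := 𝒯.triple X D hm
    exact ht.lefschetz_iff.2 (twoSteps_iff.2 (h X D hm ρ ht.ck))
  tfae_finish

end Pool.Agent.Run7.h192.HL
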