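import Mathlib

/-!
# Hard Lefschetz for families of subspaces with operators of degree two and minus two
-/

set_option autoImplicit false

namespace Pool.Agent.Run7.h192.HL

variable {V : Type*} [AddCommGroup V] [Module ℚ V]

/-- `e` and `f` behave on the subspaces `A i w` like the operators of `sl₂` of weight `2` and `-2`
on the spaces of weight `w`. -/
structure Sl2 (A : ℤ → ℤ → Submodule ℚ V) (e f : V →ₗ[ℚ] V) (n : ℕ) : Prop where
  up : ∀ i w x, x ∈ A i w → e x ∈ A (i + 1) (w + 2)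
  down : ∀ i w x, x ∈ A i w → f x ∈ A (i - 1) (w - 2)
  rel : ∀ i w x, x ∈ A i w → e (f x) - f (e x) = (w : ℚ) • x
  bot : ∀ i w, (n : ℤ) < w ∨ (n : ℤ) < -w → A i w = ⊥

variable {A : ℤ → ℤ → Submodule ℚ V} {e f : V →ₗ[ℚ] V} {n : ℕ}

lemma Sl2.symm (h : Sl2 A e f n) : Sl2 (fun i w => A (-i) (-w)) f e n where
  up i w x hx := by
    have h1 := h.down _ _ x hx
    have e1 : -(i + 1) = -i - 1 := by ring
    have e2 : -(w + 2) = -w - 2 := by ring
    simpa only [e1, e2] using h1
  down i w x hx := by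
    have h1 := h.up _ _ x hx
    have e1 : -(i - 1) = -i + 1 := by ring
    have e2 : -(w - 2) = -w + 2 := by ring
    simpa only [e1, e2] using h1
  rel i w x hx := by
    have h1 := h.rel _ _ x hx
    push_cast at h1
    rw [← neg_sub, h1, neg_smul, neg_neg]
  bot i w hw := h.bot _ _ (by rw [neg_neg]; exact hw.symm)

lemma Sl2.pow_mem (h : Sl2 A e f n) {i w : ℤ} {x : V} (hx : x ∈ A i w) (m : ℕ) :
    (e ^ m) x ∈ A (i + m) (w + 2 * m) := by
  induction m with
  | zero => simpa using hx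
  | succ m ih =>
    rw [pow_succ', Module.End.mul_apply]
    have h1 := h.up _ _ _ ih
    have e1 : i + ((m + 1 : ℕ) : ℤ) = i + m + 1 := by push_cast; ring
    have e2 : w + 2 * ((m + 1 : ℕ) : ℤ) = w + 2 * m + 2 := by push_cast; ring
    rwa [e1, e2]

lemma Sl2.comm (h : Sl2 A e f n) {i w : ℤ} {x : V} (hx : x ∈ A i w) (m : ℕ) :
    f ((e ^ (m + 1)) x) = (e ^ (m + 1)) (f x) - (((m : ℚ) + 1) * (w + m)) • (e ^ m) x := by
  induction m with
  | zero =>
    have h1 := h.rel _ _ x hx
    simp only [zero_add, pow_one, pow_zero, Module.End.one_apply, Nat.cast_zero, add_zero, one_mul]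
    rw [← h1]
    abel
  | succ m ih =>
    have h1 := h.rel _ _ _ (h.pow_mem hx (m + 1))
    have h2 : f ((e ^ (m + 1 + 1)) x) = f (e ((e ^ (m + 1)) x)) := by
      rw [pow_succ', Module.End.mul_apply]
    have h3 : (e ^ (m + 1 + 1)) (f x) = e ((e ^ (m + 1)) (f x)) := by
      rw [pow_succ' e (m + 1), Module.End.mul_apply]
    have h4 : (e ^ (m + 1)) x = e ((e ^ m) x) := by rw [pow_succ', Module.End.mul_apply]
    rw [h2, h3]
    rw [sub_eq_iff_eq_add] at h1
    have h5 : f (e ((e ^ (m + 1)) x)) = e (f ((e ^ (m + 1)) x)) -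
        (((w + 2 * ((m + 1 : ℕ) : ℤ) : ℤ) : ℚ)) • (e ^ (m + 1)) x := by
      rw [h1]; abel
    rw [h5, ih, map_sub, map_smul, ← h4]
    push_cast
    module

/-- `e ^ k` is injective on the spaces of weight `-k`. -/
theorem Sl2.inj (h : Sl2 A e f n) {k : ℕ} {i : ℤ} {x : V} (hx : x ∈ A i (-k))
    (h0 : (e ^ k) x = 0) : x = 0 := by
  have key : ∀ (d k : ℕ), n < k + d → ∀ (i : ℤ) (x : V), x ∈ A i (-k) → (e ^ k) x = 0 → x = 0 := by
    intro d
    induction d with
    | zero =>
      intro k hk i x hx _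
      rw [h.bot i (-k) (Or.inr (by omega)), Submodule.mem_bot] at hx
      exact hx
    | succ d ih =>
      intro k hk i x hx h0
      have h1 : (e ^ (k + 1)) x = 0 := by rw [pow_succ', Module.End.mul_apply, h0, map_zero]
      have h2 : (e ^ (k + 1 + 1)) x = 0 := by rw [pow_succ', Module.End.mul_apply, h1, map_zero]
      have h3 : f x = 0 := by
        have h4 := h.comm hx (k + 1)
        rw [h2, h1, smul_zero, sub_zero, map_zero] at h4
        refine ih (k + 2) (by omega) (i - 1) (f x) ?_ h4.symm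
        have h5 := h.down _ _ x hx
        have e1 : (-((k + 2 : ℕ) : ℤ)) = -k - 2 := by push_cast; ring
        rwa [e1]
      have h4 : ∀ m, m ≤ k → (e ^ (k - m)) x = 0 := by
        intro m
        induction m with
        | zero => intro _; exact h0
        | succ m ihm =>
          intro hm
          have h5 := ihm (by omega)
          have h6 := h.comm hx (k - (m + 1))
          have e1 : k - (m + 1) + 1 = k - m := by omega
          rw [e1, h5, h3, map_zero, map_zero, zero_sub, eq_comm, neg_eq_zero] at h6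
          refine (smul_eq_zero.1 h6).resolve_left ?_
          have h7 : ((k - (m + 1) : ℕ) : ℚ) = (k : ℚ) - (m + 1) := by
            rw [Nat.cast_sub hm]; push_cast; ring
          rw [h7]
          push_cast
          have h8 : ((k : ℚ) - (m + 1) + 1) = ((k - m : ℕ) : ℚ) := by
            rw [Nat.cast_sub (by omega)]; ring
          rw [h8]
          refine mul_ne_zero (by exact_mod_cast (by omega : k - m ≠ 0)) ?_
          have h9 : (-(k : ℚ) + ((k : ℚ) - (m + 1))) = -((m : ℚ) + 1) := by ring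
          rw [h9]
          exact neg_ne_zero.2 (by positivity)
      have h5 := h4 k le_rfl
      rwa [Nat.sub_self, pow_zero, Module.End.one_apply] at h5
  exact key (n + 1) k (by omega) i x hx h0

/-- Vectors killed by `f` have weight at most zero, and `e ^ (k + 1)` kills them. -/
lemma Sl2.lowest (h : Sl2 A e f n) {i w : ℤ} {x : V} (hx : x ∈ A i w) (hf : f x = 0) :
    (0 < w → x = 0) ∧ ∀ k : ℕ, w = -k → (e ^ (k + 1)) x = 0 := by
  have key : ∀ (i w : ℤ) (x : V), x ∈ A i w → f x = 0 → 0 < w → x = 0 := by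
    intro i w x hx hf hw
    obtain ⟨k, rfl⟩ : ∃ k : ℕ, w = k + 1 := ⟨(w - 1).toNat, by omega⟩
    refine h.symm.inj (k := k + 1) (i := -i) (x := x) ?_ ?_
    · simpa using hx
    · rw [pow_succ, Module.End.mul_apply, hf, map_zero]
  refine ⟨key i w x hx hf, ?_⟩
  rintro k rfl
  refine key _ _ _ (h.pow_mem hx (k + 1)) ?_ (by push_cast; omega)
  rw [h.comm hx k, hf, map_zero]
  push_cast
  simp

/-- `e ^ k` maps weight `-k` onto weight `k`. -/
theorem Sl2.surj (h : Sl2 A e f n) {k : ℕ} {i : ℤ} {u : V} (hu : u ∈ A i k) :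
    ∃ z ∈ A (i - k) (-k), (e ^ k) z = u := by
  have key : ∀ (d k : ℕ), n < k + d → ∀ (i : ℤ) (u : V), u ∈ A i k →
      ∃ z ∈ A (i - k) (-k), (e ^ k) z = u := by
    intro d
    induction d with
    | zero =>
      intro k hk i u hu
      rw [h.bot i k (Or.inl (by omega)), Submodule.mem_bot] at hu
      exact ⟨0, Submodule.zero_mem _, by rw [map_zero, hu]⟩
    | succ d ih =>
      intro k hk i u hu
      obtain ⟨z, hz, hz2⟩ := ih (k + 2) (by omega) (i + 1) (e u) (by
        have h1 := h.up _ _ u hu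
        have e1 : ((k + 2 : ℕ) : ℤ) = k + 2 := by push_cast; ring
        rwa [e1])
      have hz1 : (e ^ (k + 1)) z ∈ A i k := by
        have h1 := h.pow_mem hz (k + 1)
        have e1 : i + 1 - ((k + 2 : ℕ) : ℤ) + ((k + 1 : ℕ) : ℤ) = i := by push_cast; ring
        have e2 : -((k + 2 : ℕ) : ℤ) + 2 * ((k + 1 : ℕ) : ℤ) = k := by push_cast; ring
        rwa [e1, e2] at h1
      have hz0 : e z ∈ A (i - k) (-k) := by
        have h1 := h.up _ _ z hz
        have e1 : i + 1 - ((k + 2 : ℕ) : ℤ) + 1 = i - k := by push_cast; ring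
        have e2 : -((k + 2 : ℕ) : ℤ) + 2 = -k := by push_cast; ring
        rwa [e1, e2] at h1
      set u' := u - (e ^ (k + 1)) z with hu'
      have hu1 : u' ∈ A i k := Submodule.sub_mem _ hu hz1
      have hu2 : e u' = 0 := by
        rw [hu', map_sub, ← hz2, pow_succ' e (k + 1), Module.End.mul_apply, sub_self]
      have h4 : ∀ m, m ≤ k → ∃ c : ℚ, c ≠ 0 ∧ (e ^ m) ((f ^ m) u') = c • u' := by
        intro m
        induction m with
        | zero => intro _; exact ⟨1, one_ne_zero, by simp⟩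
        | succ m ihm =>
          intro hm
          obtain ⟨c, hc, hcm⟩ := ihm (by omega)
          have h5 := h.symm.comm (i := -i) (w := -k) (x := u') (by simpa using hu1) m
          rw [hu2, map_zero, zero_sub] at h5
          refine ⟨((m : ℚ) + 1) * (k - m) * c, ?_, ?_⟩
          · have h6 : ((k : ℚ) - m) ≠ 0 := by
              rw [sub_ne_zero]
              exact_mod_cast (by omega : k ≠ m)
            exact mul_ne_zero (mul_ne_zero (by positivity) h6) hc
          · rw [pow_succ e m, Module.End.mul_apply, h5, map_neg, map_smul, hcm]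
            push_cast
            module
      obtain ⟨c, hc, hck⟩ := h4 k le_rfl
      refine ⟨e z + c⁻¹ • (f ^ k) u', Submodule.add_mem _ hz0 (Submodule.smul_mem _ _ ?_), ?_⟩
      · have h5 := h.symm.pow_mem (i := -i) (w := -k) (x := u') (by simpa using hu1) k
        have e1 : -(-i + (k : ℤ)) = i - k := by ring
        have e2 : -(-(k : ℤ) + 2 * k) = -k := by ring
        simpa only [e1, e2] using h5
      · rw [map_add, map_smul, hck, smul_smul, inv_mul_cancel₀ hc, one_smul, ← Module.End.mul_apply,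
          ← pow_succ, hu']
        abel
  exact key (n + 1) k (by omega) i u hu

/-! ### two centres -/

theorem Sl2.noUpper (h : Sl2 A e f n) (hI : ∀ i w x, x ∈ A i w → ∀ m : ℕ, (m : ℤ) = n + 1 - 2 * i →
    (e ^ m) x = 0 → x = 0) (i w : ℤ) (hw : 2 * i ≤ w + n) : A i w = ⊥ := by
  have key : ∀ (t : ℕ) (i w : ℤ) (x : V), w + n < t → 2 * i ≤ w + n → x ∈ A i w → x = 0 := by
    intro t
    induction t with
    | zero =>
      intro i w x h1 _ hx
      rw [h.bot i w (Or.inr (by push_cast at h1; omega)), Submodule.mem_bot] at hx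
      exact hx
    | succ t ih =>
      intro i w x h1 h2 hx
      have h3 : f x = 0 := ih (i - 1) (w - 2) (f x) (by push_cast at h1; omega) (by omega)
        (h.down _ _ _ hx)
      obtain ⟨h4, h5⟩ := h.lowest hx h3
      rcases lt_or_ge 0 w with hw | hw
      · exact h4 hw
      obtain ⟨k, rfl⟩ : ∃ k : ℕ, w = -k := ⟨(-w).toNat, by omega⟩
      obtain ⟨m, hm⟩ : ∃ m : ℕ, (m : ℤ) = n + 1 - 2 * i := ⟨(n + 1 - 2 * i).toNat, by omega⟩
      refine hI i _ x hx m hm ?_
      obtain ⟨d, rfl⟩ : ∃ d : ℕ, m = d + (k + 1) := ⟨m - (k + 1), by omega⟩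
      rw [pow_add, Module.End.mul_apply, h5 k rfl, map_zero]
  rw [Submodule.eq_bot_iff]
  intro x hx
  rcases lt_or_ge (w + n) 0 with h1 | h1
  · rw [h.bot i w (Or.inr (by omega)), Submodule.mem_bot] at hx
    exact hx
  · exact key ((w + n).toNat + 1) i w x (by omega) hw hx

theorem Sl2.noLower (h : Sl2 A e f n) (hS : ∀ i w x, x ∈ A i w → ∀ m : ℕ, (m : ℤ) = 2 * i - n - 1 →
    ∃ z ∈ A (i - m) (w - 2 * m), (e ^ m) z = x) (i w : ℤ) (hw : w + n + 1 < 2 * i) : A i w = ⊥ := by
  have key : ∀ (t : ℕ) (i w : ℤ) (x : V), n - w < t → w + n + 1 < 2 * i → x ∈ A i w → x = 0 := by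
    intro t
    induction t with
    | zero =>
      intro i w x h1 _ hx
      rw [h.bot i w (Or.inl (by push_cast at h1; omega)), Submodule.mem_bot] at hx
      exact hx
    | succ t ih =>
      intro i w x h1 h2 hx
      have h3 : e x = 0 := ih (i + 1) (w + 2) (e x) (by push_cast at h1; omega) (by omega)
        (h.up _ _ _ hx)
      rcases lt_or_ge w 0 with hw | hw
      · obtain ⟨k, rfl⟩ : ∃ k : ℕ, w = -((k + 1 : ℕ) : ℤ) := ⟨(-w - 1).toNat, by push_cast; omega⟩
        refine h.inj hx ?_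
        rw [pow_succ, Module.End.mul_apply, h3, map_zero]
      obtain ⟨k, rfl⟩ : ∃ k : ℕ, w = k := ⟨w.toNat, by omega⟩
      obtain ⟨m, hm⟩ : ∃ m : ℕ, (m : ℤ) = 2 * i - n - 1 := ⟨(2 * i - n - 1).toNat, by omega⟩
      obtain ⟨z, hz, hzx⟩ := hS i _ x hx m hm
      obtain ⟨l, hl⟩ : ∃ l : ℕ, k - 2 * (m : ℤ) = -l := ⟨(2 * (m : ℤ) - k).toNat, by omega⟩
      rw [hl] at hz
      have h4 : z = 0 := by
        refine h.inj hz ?_
        obtain ⟨d, rfl⟩ : ∃ d : ℕ, l = d + (m + 1) := ⟨l - (m + 1), by omega⟩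
        rw [pow_add, Module.End.mul_apply, pow_succ' e m, Module.End.mul_apply, hzx, h3, map_zero]
      rw [← hzx, h4, map_zero]
  rw [Submodule.eq_bot_iff]
  intro x hx
  rcases lt_or_ge (n - w) 0 with h1 | h1
  · rw [h.bot i w (Or.inl (by omega)), Submodule.mem_bot] at hx
    exact hx
  · exact key ((n - w).toNat + 1) i w x (by omega) hw hx

theorem Sl2.inj_of (h : Sl2 A e f n) (h0 : ∀ i w : ℤ, 2 * i ≤ w + n → A i w = ⊥) {i w : ℤ} {x : V}
    (hx : x ∈ A i w) {m : ℕ} (hm : (m : ℤ) = n + 1 - 2 * i) (h1 : (e ^ m) x = 0) : x = 0 := by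
  rcases le_or_gt (2 * i) (w + n) with h2 | h2
  · rw [h0 i w h2, Submodule.mem_bot] at hx
    exact hx
  obtain ⟨k, rfl⟩ : ∃ k : ℕ, w = -k := ⟨(-w).toNat, by omega⟩
  refine h.inj hx ?_
  obtain ⟨d, rfl⟩ : ∃ d : ℕ, k = d + m := ⟨k - m, by omega⟩
  rw [pow_add, Module.End.mul_apply, h1, map_zero]

theorem Sl2.surj_of (h : Sl2 A e f n) (h0 : ∀ i w : ℤ, w + n + 1 < 2 * i → A i w = ⊥) {i w : ℤ}
    {x : V} (hx : x ∈ A i w) {m : ℕ} (hm : (m : ℤ) = 2 * i - n - 1) :
    ∃ z ∈ A (i - m) (w - 2 * m), (e ^ m) z = x := by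
  rcases lt_or_ge (w + n + 1) (2 * i) with h2 | h2
  · rw [h0 i w h2, Submodule.mem_bot] at hx
    exact ⟨0, Submodule.zero_mem _, by rw [map_zero, hx]⟩
  obtain ⟨k, rfl⟩ : ∃ k : ℕ, w = k := ⟨w.toNat, by omega⟩
  obtain ⟨z, hz, hzx⟩ := h.surj hx
  obtain ⟨d, rfl⟩ : ∃ d : ℕ, k = m + d := ⟨k - m, by omega⟩
  refine ⟨(e ^ d) z, ?_, by rw [← Module.End.mul_apply, ← pow_add, hzx]⟩
  have h3 := h.pow_mem hz d
  have e1 : i - ((m + d : ℕ) : ℤ) + d = i - m := by push_cast; ring
  have e2 : -((m + d : ℕ) : ℤ) + 2 * d = ((m + d : ℕ) : ℤ) - 2 * m := by push_cast; ring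
  rwa [e1, e2] at h3

end Pool.Agent.Run7.h192.HL
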