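import Pool.Agent.Run7.h192.HL.Defs
import Pool.Agent.Run7.h192.HL.Sl2
import Pool.Agent.R903.Calc
import Pool.Agent.Run7.h192.AJ.Alg

/-!
# Hard Lefschetz for homologically trivial cycles
-/

set_option autoImplicit false

open CategoryTheory CategoryTheory.Limits AlgebraicGeometry Finset
open Pool.Agent.H914 Pool.Agent.H914.VarClass Pool.Agent.H914.VarClass.Obj Pool.Agent.R903
open Pool.Agent.R903.ChowTheory Pool.Agent.R903.WeilTheory Pool.Agent.Run7.h192.Murre
open Pool.Agent.Run7.h192.AJ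

universe u v w

namespace Pool.Agent.Run7.h192.HL

variable {k : Type u} [Field k] {𝒱 : VarClass k} {C : ChowTheory.{u, v} 𝒱}
  {W : WeilTheory.{u, v, w} C} {X Y Z : 𝒱.Obj} {D : C.CH X} {Λ : C.CH (X.prod X)}
  {π : ℕ → C.CH (X.prod X)}

/-- the homologically trivial classes of codimension `i` -/
def homSub (W : WeilTheory.{u, v, w} C) (X : 𝒱.Obj) (i : ℕ) : Submodule ℚ (C.CH X) where
  carrier := {x | HomTriv W i x}
  add_mem' := fun ha hb => ⟨Submodule.add_mem _ ha.1 hb.1, by rw [map_add, ha.2, hb.2, add_zero]⟩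
  zero_mem' := ⟨Submodule.zero_mem _, map_zero _⟩
  smul_mem' := fun c x hx => ⟨Submodule.smul_mem _ _ hx.1, by rw [W.cl_smul, hx.2, smul_zero]⟩

/-- the classes in the part given by `π` -/
noncomputable def fixSub (C : ChowTheory.{u, v} 𝒱) {X : 𝒱.Obj} (γ : C.CH (X.prod X)) :
    Submodule ℚ (C.CH X) :=
  LinearMap.eqLocus (C.act γ) LinearMap.id

open Classical in
/-- the homologically trivial part of `CH^i(h^(w + n)(X))` -/
noncomputable def fam (W : WeilTheory.{u, v, w} C) {X : 𝒱.Obj} (π : ℕ → C.CH (X.prod X))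
    (i w : ℤ) : Submodule ℚ (C.CH X) :=
  if 0 ≤ i ∧ 0 ≤ w + X.dim then homSub W X i.toNat ⊓ fixSub C (π (w + X.dim).toNat) else ⊥

lemma mem_fam {i j : ℕ} {x : C.CH X} :
    x ∈ fam W π i ((j : ℤ) - X.dim) ↔ HomTriv W i x ∧ C.act (π j) x = x := by
  have h1 : (0 : ℤ) ≤ i ∧ (0 : ℤ) ≤ (j : ℤ) - X.dim + X.dim := by omega
  have h2 : ((j : ℤ) - X.dim + X.dim).toNat = j := by omega
  rw [fam, if_pos h1, h2, Int.toNat_natCast]
  rfl

lemma fam_cases {i w : ℤ} {x : C.CH X} (hx : x ∈ fam W π i w) :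
    x = 0 ∨ ∃ a j : ℕ, i = a ∧ w = (j : ℤ) - X.dim ∧ HomTriv W a x ∧ C.act (π j) x = x := by
  by_cases h : 0 ≤ i ∧ 0 ≤ w + X.dim
  · refine Or.inr ⟨i.toNat, (w + X.dim).toNat, by omega, by omega, ?_⟩
    rw [fam, if_pos h] at hx
    exact hx
  · rw [fam, if_neg h, Submodule.mem_bot] at hx
    exact Or.inl hx

lemma isBracket_iff {α β γ : C.CH (X.prod X)} :
    IsBracket C α β γ ↔ C.comp α β - C.comp β α = γ := by
  rw [IsBracket, addOf, sub_eq_iff_eq_add, add_comm]

lemma LefschetzTriple.up (h : LefschetzTriple W D Λ π) :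
    C.comp (mulC C D) (weightC C π) - C.comp (weightC C π) (mulC C D) = (2 : ℚ) • mulC C D := by
  rw [isBracket_iff.1 h.up0, addOf, two_smul]

lemma LefschetzTriple.down (h : LefschetzTriple W D Λ π) :
    C.comp Λ (weightC C π) - C.comp (weightC C π) Λ = (-2 : ℚ) • Λ := by
  rw [← neg_sub, isBracket_iff.1 h.down0, addOf, neg_smul, two_smul]

lemma LefschetzTriple.rel (h : LefschetzTriple W D Λ π) :
    C.comp Λ (mulC C D) - C.comp (mulC C D) Λ = weightC C π := isBracket_iff.1 h.rel0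

/-- from the relations -/
lemma LefschetzTriple.of (h1 : W.IsCK X π) (h2 : Codim C 1 D) (h3 : Codim C (X.dim - 1) Λ)
    (h4 : X.dim = 0 → Λ = 0)
    (h5 : C.comp (mulC C D) (weightC C π) - C.comp (weightC C π) (mulC C D) =
      (2 : ℚ) • mulC C D)
    (h6 : C.comp Λ (weightC C π) - C.comp (weightC C π) Λ = (-2 : ℚ) • Λ)
    (h7 : C.comp Λ (mulC C D) - C.comp (mulC C D) Λ = weightC C π) :
    LefschetzTriple W D Λ π where
  ck := h1
  divisor := h2
  codim := h3
  point := h4
  up0 := by rw [isBracket_iff, h5, addOf, two_smul]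
  down0 := by rw [isBracket_iff, ← neg_sub, h6, addOf, neg_smul, two_smul, neg_neg]
  rel0 := isBracket_iff.2 h7

lemma weightC_eq (π : ℕ → C.CH (X.prod X)) : weightC C π =
    ∑ j ∈ Finset.range (2 * X.dim + 1), ((j : ℚ) - X.dim) • π j := rfl

lemma mulC_eq (D : C.CH X) : mulC C D = C.span (𝟙 X) (𝟙 X) D := rfl

lemma act_mulC (x : C.CH X) : C.act (mulC C D) x = D * x := by
  rw [mulC_eq, C.act_span, C.pull_id, C.push_id]

lemma mulC_mem (hD : Codim C 1 D) : Codim C (1 + X.dim) (mulC C D) :=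
  C.span_mem _ _ hD (by omega)

lemma homTriv_mul {i : ℕ} (hD : Codim C 1 D) {x : C.CH X} (hx : HomTriv W i x) :
    HomTriv W (i + 1) (D * x) := by
  refine ⟨?_, by rw [W.cl_mul, hx.2, mul_zero]⟩
  have h1 := C.mul_mem hD hx.1
  rwa [add_comm] at h1

lemma homTriv_pow (hD : Codim C 1 D) {i : ℕ} {x : C.CH X} (hx : HomTriv W i x) (m : ℕ) :
    HomTriv W (i + m) (D ^ m * x) := by
  induction m with
  | zero => simpa using hx
  | succ m ih =>
    rw [pow_succ', mul_assoc]
    exact homTriv_mul hD ih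

lemma sub_comp' (α α' : C.CH (X.prod Y)) (β : C.CH (Y.prod Z)) :
    C.comp (α - α') β = C.comp α β - C.comp α' β := by
  have h1 := C.add_comp α ((-1 : ℚ) • α') β
  rwa [C.smul_comp, neg_one_smul, neg_one_smul, ← sub_eq_add_neg, ← sub_eq_add_neg] at h1

lemma comp_sub' (α : C.CH (X.prod Y)) (β β' : C.CH (Y.prod Z)) :
    C.comp α (β - β') = C.comp α β - C.comp α β' := by
  have h1 := C.comp_add α β ((-1 : ℚ) • β')
  rwa [C.comp_smul, neg_one_smul, neg_one_smul, ← sub_eq_add_neg, ← sub_eq_add_neg] at h1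

lemma weightC_comp (h : W.IsCK X π) (j : ℕ) :
    C.comp (weightC C π) (π j) = ((j : ℚ) - X.dim) • π j := by
  rw [weightC_eq, C.sum_comp]
  by_cases hj : j < 2 * X.dim + 1
  · rw [Finset.sum_eq_single j]
    · rw [C.smul_comp, h.idem]
    · intro l _ hl
      rw [C.smul_comp, h.orth l j hl, smul_zero]
    · intro hl
      exact absurd (Finset.mem_range.2 hj) hl
  · rw [h.eq_zero (by omega), smul_zero]
    exact Finset.sum_eq_zero fun l _ => C.comp_zero _

lemma comp_weightC (h : W.IsCK X π) (j : ℕ) :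
    C.comp (π j) (weightC C π) = ((j : ℚ) - X.dim) • π j := by
  rw [weightC_eq, C.comp_sum]
  by_cases hj : j < 2 * X.dim + 1
  · rw [Finset.sum_eq_single j]
    · rw [C.comp_smul, h.idem]
    · intro l _ hl
      rw [C.comp_smul, h.orth j l (Ne.symm hl), smul_zero]
    · intro hl
      exact absurd (Finset.mem_range.2 hj) hl
  · rw [h.eq_zero (by omega), smul_zero]
    exact Finset.sum_eq_zero fun l _ => C.zero_comp _

/-- a correspondence of weight `c` maps `h^a` to `h^(a + c)` -/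
lemma weight_block (h : W.IsCK X π) {γ : C.CH (X.prod X)} {c : ℚ}
    (hγ : C.comp γ (weightC C π) - C.comp (weightC C π) γ = c • γ) {a b : ℕ}
    (hab : (b : ℚ) - a ≠ c) : C.comp (C.comp (π a) γ) (π b) = 0 := by
  have h1 : C.comp (C.comp (π a) (C.comp γ (weightC C π) - C.comp (weightC C π) γ)) (π b) =
      c • C.comp (C.comp (π a) γ) (π b) := by rw [hγ, C.comp_smul, C.smul_comp]
  rw [comp_sub', sub_comp'] at h1
  have h2 : C.comp (C.comp (π a) (C.comp γ (weightC C π))) (π b) =
      ((b : ℚ) - X.dim) • C.comp (C.comp (π a) γ) (π b) := by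
    rw [C.comp_assoc, C.comp_assoc, weightC_comp h, C.comp_smul, C.comp_smul, ← C.comp_assoc]
  have h3 : C.comp (C.comp (π a) (C.comp (weightC C π) γ)) (π b) =
      ((a : ℚ) - X.dim) • C.comp (C.comp (π a) γ) (π b) := by
    rw [← C.comp_assoc (π a), comp_weightC h, C.smul_comp, C.smul_comp]
  rw [h2, h3, ← sub_smul, ← sub_eq_zero, ← sub_smul] at h1
  refine (smul_eq_zero.1 h1).resolve_left fun h4 => hab ?_
  linarith

lemma comp_eq_block (h : W.IsCK X π) {γ : C.CH (X.prod X)} {c : ℚ}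
    (hγ : C.comp γ (weightC C π) - C.comp (weightC C π) γ = c • γ) {a b : ℕ}
    (hab : (b : ℚ) - a = c) : C.comp (π a) γ = C.comp γ (π b) := by
  have h1 : ∀ s t : ℕ, C.comp (C.comp (π s) γ) (π t) ≠ 0 → (t : ℚ) - s = c := by
    intro s t hst
    by_contra hne
    exact hst (weight_block h hγ hne)
  have h2 : C.comp (π a) γ = C.comp (C.comp (π a) γ) (π b) := by
    conv_lhs => rw [← C.comp_diagC (C.comp (π a) γ), ← h.sum, C.comp_sum]
    by_cases hb : b < 2 * X.dim + 1
    · refine Finset.sum_eq_single b ?_ ?_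
      · intro l _ hl
        refine weight_block h hγ fun h3 => hl ?_
        have h4 : (l : ℚ) = b := by linarith
        exact_mod_cast h4
      · intro hl
        exact absurd (Finset.mem_range.2 hb) hl
    · rw [h.eq_zero (j := b) (by omega), C.comp_zero]
      refine Finset.sum_eq_zero fun l hl => weight_block h hγ fun h3 => hb ?_
      have h4 : (l : ℚ) = b := by linarith
      have h5 : l = b := by exact_mod_cast h4
      rw [← h5]
      exact Finset.mem_range.1 hl
  have h3 : C.comp γ (π b) = C.comp (C.comp (π a) γ) (π b) := by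
    conv_lhs => rw [← C.diagC_comp (C.comp γ (π b)), ← h.sum, C.sum_comp]
    by_cases ha : a < 2 * X.dim + 1
    · rw [Finset.sum_eq_single a, C.comp_assoc]
      · intro l _ hl
        rw [← C.comp_assoc]
        refine weight_block h hγ fun h3 => hl ?_
        have h4 : (l : ℚ) = a := by linarith
        exact_mod_cast h4
      · intro hl
        exact absurd (Finset.mem_range.2 ha) hl
    · rw [h.eq_zero (j := a) (by omega), C.zero_comp, C.zero_comp]
      refine Finset.sum_eq_zero fun l hl => ?_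
      rw [← C.comp_assoc]
      refine weight_block h hγ fun h3 => ha ?_
      have h4 : (l : ℚ) = a := by linarith
      have h5 : l = a := by exact_mod_cast h4
      rw [← h5]
      exact Finset.mem_range.1 hl
  rw [h2, h3]

lemma LefschetzTriple.up' (h : LefschetzTriple W D Λ π) (j : ℕ) :
    C.comp (π j) (mulC C D) = C.comp (mulC C D) (π (j + 2)) :=
  comp_eq_block h.ck h.up (by push_cast; ring)

lemma LefschetzTriple.down' (h : LefschetzTriple W D Λ π) (j : ℕ) :
    C.comp (π (j + 2)) Λ = C.comp Λ (π j) :=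
  comp_eq_block h.ck h.down (by push_cast; ring)

lemma LefschetzTriple.low' (h : LefschetzTriple W D Λ π) (j : ℕ) (hj : j < 2) :
    C.comp (π j) Λ = 0 := by
  rw [← C.comp_diagC (C.comp (π j) Λ), ← h.ck.sum, C.comp_sum]
  refine Finset.sum_eq_zero fun l _ => weight_block h.ck h.down fun h3 => ?_
  have h4 : (l : ℚ) + 2 = j := by linarith
  have h5 : l + 2 = j := by exact_mod_cast h4
  omega

lemma LefschetzTriple.act_mul (h : LefschetzTriple W D Λ π) (j : ℕ) (x : C.CH X) :
    C.act (π (j + 2)) (D * x) = D * C.act (π j) x := by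
  rw [← act_mulC, ← act_mulC, ← C.act_comp, ← C.act_comp, h.up']

lemma LefschetzTriple.act_pow (h : LefschetzTriple W D Λ π) (j m : ℕ) (x : C.CH X) :
    C.act (π (j + 2 * m)) (D ^ m * x) = D ^ m * C.act (π j) x := by
  induction m with
  | zero => simp
  | succ m ih =>
    have e1 : j + 2 * (m + 1) = (j + 2 * m) + 2 := by ring
    rw [pow_succ', mul_assoc, e1, h.act_mul, ih, mul_assoc]

lemma LefschetzTriple.act_pow_low (h : LefschetzTriple W D Λ π) {j m : ℕ} (hj : j < 2 * m)
    (x : C.CH X) : C.act (π j) (D ^ m * x) = 0 := by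
  conv_lhs => rw [← h.ck.sum_act x]
  rw [Finset.mul_sum, map_sum]
  refine Finset.sum_eq_zero fun l _ => ?_
  rw [← h.act_pow, h.ck.act_act, if_neg (by omega)]

lemma mulLeft_pow_apply (m : ℕ) (x : C.CH X) : ((LinearMap.mulLeft ℚ D) ^ m) x = D ^ m * x := by
  rw [LinearMap.pow_mulLeft, LinearMap.mulLeft_apply]

theorem LefschetzTriple.sl2 (h : LefschetzTriple W D Λ π) :
    Sl2 (fam W π) (LinearMap.mulLeft ℚ D) (C.act Λ) X.dim where
  up i w x hx := by
    rw [LinearMap.mulLeft_apply]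
    rcases fam_cases hx with rfl | ⟨a, j, rfl, rfl, h1, h2⟩
    · rw [mul_zero]; exact Submodule.zero_mem _
    · have e1 : (a : ℤ) + 1 = ((a + 1 : ℕ) : ℤ) := by push_cast; ring
      have e2 : (j : ℤ) - X.dim + 2 = ((j + 2 : ℕ) : ℤ) - X.dim := by push_cast; ring
      rw [e1, e2, mem_fam]
      exact ⟨homTriv_mul h.divisor h1, by rw [h.act_mul, h2]⟩
  down i w x hx := by
    rcases fam_cases hx with rfl | ⟨a, j, rfl, rfl, h1, h2⟩
    · rw [map_zero]; exact Submodule.zero_mem _
    · by_cases hj : j < 2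
      · rw [← h2, ← C.act_comp, h.low' j hj, C.act_zero, LinearMap.zero_apply]
        exact Submodule.zero_mem _
      obtain ⟨j, rfl⟩ : ∃ l, j = l + 2 := ⟨j - 2, by omega⟩
      by_cases hd : X.dim = 0
      · rw [h.point hd, C.act_zero, LinearMap.zero_apply]
        exact Submodule.zero_mem _
      by_cases ha : a = 0
      · subst ha
        rw [C.act_eq_zero h.codim h1.1 (by omega)]
        exact Submodule.zero_mem _
      obtain ⟨a, rfl⟩ : ∃ l, a = l + 1 := ⟨a - 1, by omega⟩
      have e1 : ((a + 1 : ℕ) : ℤ) - 1 = (a : ℤ) := by push_cast; ring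
      have e2 : ((j + 2 : ℕ) : ℤ) - X.dim - 2 = (j : ℤ) - X.dim := by push_cast; ring
      rw [e1, e2, mem_fam]
      refine ⟨h1.act ⟨X.dim - 1, by omega, h.codim⟩, ?_⟩
      rw [← C.act_comp, ← h.down', C.act_comp, h2]
  rel i w x hx := by
    rw [LinearMap.mulLeft_apply, LinearMap.mulLeft_apply]
    rcases fam_cases hx with rfl | ⟨a, j, rfl, rfl, h1, h2⟩
    · simp
    · rw [← act_mulC, ← act_mulC, ← C.act_comp, ← C.act_comp, ← LinearMap.sub_apply, ← C.act_sub,
        h.rel, weightC_eq, act_sum_apply]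
      by_cases hj : j < 2 * X.dim + 1
      · rw [Finset.sum_eq_single j]
        · rw [C.act_smul, LinearMap.smul_apply, h2]
          push_cast
          rfl
        · intro l _ hl
          rw [C.act_smul, LinearMap.smul_apply, ← h2, h.ck.act_act, if_neg hl, smul_zero]
        · intro hl
          exact absurd (Finset.mem_range.2 hj) hl
      · have h3 : x = 0 := by rw [← h2, h.ck.eq_zero (by omega), C.act_zero, LinearMap.zero_apply]
        rw [h3]
        simp
  bot i w hw := by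
    rw [Submodule.eq_bot_iff]
    intro x hx
    rcases fam_cases hx with rfl | ⟨a, j, rfl, rfl, h1, h2⟩
    · rfl
    · rw [← h2, h.ck.eq_zero (by omega), C.act_zero, LinearMap.zero_apply]

lemma LefschetzTriple.comp_homTriv (h : LefschetzTriple W D Λ π) {i : ℕ} {x : C.CH X}
    (hx : HomTriv W i x) (j : ℕ) : C.act (π j) x ∈ fam W π i ((j : ℤ) - X.dim) :=
  mem_fam.2 ⟨hx.act (shifts_zero (h.ck.mem j) i), by rw [h.ck.act_act, if_pos rfl]⟩

/-- the statement on all components -/
lemma LefschetzTriple.injective_iff (h : LefschetzTriple W D Λ π) :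
    (∀ i, 2 * i ≤ X.dim + 1 → LefInjective W D i) ↔
    ∀ i w x, x ∈ fam W π i w → ∀ m : ℕ, (m : ℤ) = X.dim + 1 - 2 * i →
      ((LinearMap.mulLeft ℚ D) ^ m) x = 0 → x = 0 := by
  simp only [LefInjective, powMul]
  constructor
  · intro hI i w x hx m hm h0
    rcases fam_cases hx with rfl | ⟨a, j, rfl, rfl, h1, h2⟩
    · rfl
    · rw [mulLeft_pow_apply] at h0
      refine hI a (by omega) x h1 ?_
      have e1 : X.dim + 1 - 2 * a = m := by omega
      rw [e1, h0]
  · intro hI i hi x hx h0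
    rw [← h.ck.sum_act x]
    refine Finset.sum_eq_zero fun j _ => ?_
    refine hI i _ _ (h.comp_homTriv hx j) (X.dim + 1 - 2 * i) (by omega) ?_
    rw [mulLeft_pow_apply, ← h.act_pow, h0, map_zero]

lemma LefschetzTriple.surjective_iff (h : LefschetzTriple W D Λ π) :
    (∀ i, 2 * i ≤ X.dim + 1 → LefSurjective W D i) ↔
    ∀ i w x, x ∈ fam W π i w → ∀ m : ℕ, (m : ℤ) = 2 * i - X.dim - 1 →
      ∃ z ∈ fam W π (i - m) (w - 2 * m), ((LinearMap.mulLeft ℚ D) ^ m) z = x := by
  simp only [LefSurjective, powMul]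
  constructor
  · intro hS i w x hx m hm
    rcases fam_cases hx with rfl | ⟨a, j, rfl, rfl, h1, h2⟩
    · exact ⟨0, Submodule.zero_mem _, map_zero _⟩
    · by_cases ha : X.dim < a
      · have h3 : x ∈ C.gr X a := h1.1
        rw [C.gr_eq_bot X a ha, Submodule.mem_bot] at h3
        exact ⟨0, Submodule.zero_mem _, by rw [map_zero, h3]⟩
      have e0 : X.dim + 1 - (X.dim + 1 - a) = a := by omega
      obtain ⟨z, hz, hzx⟩ := hS (X.dim + 1 - a) (by omega) x (by rw [e0]; exact h1)
      have e1 : X.dim + 1 - 2 * (X.dim + 1 - a) = m := by omega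
      rw [e1] at hzx
      by_cases hj : j < 2 * m
      · refine ⟨0, Submodule.zero_mem _, ?_⟩
        rw [map_zero, ← h2, ← hzx, h.act_pow_low hj]
      obtain ⟨l, rfl⟩ : ∃ l, j = l + 2 * m := ⟨j - 2 * m, by omega⟩
      refine ⟨C.act (π l) z, ?_, ?_⟩
      · have h4 := h.comp_homTriv hz l
        have e2 : (a : ℤ) - m = ((X.dim + 1 - a : ℕ) : ℤ) := by omega
        have e3 : ((l + 2 * m : ℕ) : ℤ) - X.dim - 2 * m = (l : ℤ) - X.dim := by push_cast; ring
        rwa [e2, e3]
      · rw [mulLeft_pow_apply, ← h.act_pow, hzx, h2]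
  · intro hS i hi y hy
    have h1 : ∀ j, ∃ z, HomTriv W i z ∧ D ^ (X.dim + 1 - 2 * i) * z = C.act (π j) y := by
      intro j
      obtain ⟨z, hz, hzx⟩ := hS _ _ _ (h.comp_homTriv hy j) (X.dim + 1 - 2 * i) (by omega)
      rw [mulLeft_pow_apply] at hzx
      rcases fam_cases hz with rfl | ⟨a, l, ha, -, h2, -⟩
      · exact ⟨0, (homSub W X i).zero_mem, hzx⟩
      · have e1 : a = i := by omega
        subst e1
        exact ⟨z, h2, hzx⟩
    choose z hz hzx using h1
    refine ⟨∑ j ∈ Finset.range (2 * X.dim + 1), z j,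
      (homSub W X i).sum_mem fun j _ => hz j, ?_⟩
    rw [Finset.mul_sum]
    simp only [hzx]
    exact h.ck.sum_act y

lemma LefschetzTriple.noUpper_iff (h : LefschetzTriple W D Λ π) : NoUpper W π ↔
    ∀ i w : ℤ, 2 * i ≤ w + X.dim → fam W π i w = ⊥ := by
  constructor
  · intro hU i w hw
    rw [Submodule.eq_bot_iff]
    intro x hx
    rcases fam_cases hx with rfl | ⟨a, j, rfl, rfl, h1, h2⟩
    · rfl
    · rw [← h2]
      refine hU a j x h1.1 ?_
      rcases lt_or_eq_of_le (show 2 * a ≤ j by omega) with h3 | h3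
      · exact Or.inl h3
      · exact Or.inr ⟨h3.symm, h1⟩
  · intro hU i j x hx hj
    have h1 : HomTriv W i (C.act (π j) x) := by
      refine ⟨C.act_mem (h.ck.mem j) hx rfl, ?_⟩
      rcases hj with hj | hj
      · rw [W.cl_act, h.ck.proj j _ _ (W.cl_mem hx), if_neg (by omega)]
      · rw [W.cl_act, hj.2.2, map_zero]
    have h2 : C.act (π j) x ∈ fam W π i ((j : ℤ) - X.dim) :=
      mem_fam.2 ⟨h1, by rw [h.ck.act_act, if_pos rfl]⟩
    rw [hU _ _ (by omega), Submodule.mem_bot] at h2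
    exact h2

lemma LefschetzTriple.noLower_iff (h : LefschetzTriple W D Λ π) : NoLower C π ↔
    ∀ i w : ℤ, w + X.dim + 1 < 2 * i → fam W π i w = ⊥ := by
  constructor
  · intro hU i w hw
    rw [Submodule.eq_bot_iff]
    intro x hx
    rcases fam_cases hx with rfl | ⟨a, j, rfl, rfl, h1, h2⟩
    · rfl
    · rw [← h2]
      exact hU a j x h1.1 (by omega)
  · intro hU i j x hx hj
    have h1 : HomTriv W i (C.act (π j) x) := by
      refine ⟨C.act_mem (h.ck.mem j) hx rfl, ?_⟩
      rw [W.cl_act, h.ck.proj j _ _ (W.cl_mem hx), if_neg (by omega)]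
    have h2 : C.act (π j) x ∈ fam W π i ((j : ℤ) - X.dim) :=
      mem_fam.2 ⟨h1, by rw [h.ck.act_act, if_pos rfl]⟩
    rw [hU _ _ (by omega), Submodule.mem_bot] at h2
    exact h2

/-- **Injectivity.** -/
theorem LefschetzTriple.injective_tfae (h : LefschetzTriple W D Λ π) :
    (∀ i, 2 * i ≤ X.dim + 1 → LefInjective W D i) ↔ NoUpper W π := by
  rw [h.injective_iff, h.noUpper_iff]
  exact ⟨fun hI => h.sl2.noUpper hI, fun h0 i w x hx m hm h1 => h.sl2.inj_of h0 hx hm h1⟩

/-- **Surjectivity.** -/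
theorem LefschetzTriple.surjective_tfae (h : LefschetzTriple W D Λ π) :
    (∀ i, 2 * i ≤ X.dim + 1 → LefSurjective W D i) ↔ NoLower C π := by
  rw [h.surjective_iff, h.noLower_iff]
  exact ⟨fun hI => h.sl2.noLower hI, fun h0 i w x hx m hm => h.sl2.surj_of h0 hx hm⟩

lemma twoSteps_iff : TwoSteps W π ↔ NoUpper W π ∧ NoLower C π := by
  constructor
  · intro h
    refine ⟨fun i j x hx hj => h i j x hx ?_ (by omega), fun i j x hx hj =>
      h i j x hx (Or.inl (by omega)) (by omega)⟩
    rcases hj with hj | hj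
    · exact Or.inl (by omega)
    · exact Or.inr hj.2
  · rintro ⟨h1, h2⟩ i j x hx h3 h4
    rcases lt_trichotomy (2 * i) j with h5 | h5 | h5
    · exact h1 i j x hx (Or.inl h5)
    · rcases h3 with h3 | h3
      · exact absurd h5.symm h3
      · exact h1 i j x hx (Or.inr ⟨h5.symm, h3⟩)
    · exact h2 i j x hx (by omega)

end Pool.Agent.Run7.h192.HL
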