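import Pool.Agent.Run7.h192.HL.Main

/-!
# Transposes and products of Lefschetz triples
-/

set_option autoImplicit false

open CategoryTheory CategoryTheory.Limits AlgebraicGeometry Finset
open Pool.Agent.H914 Pool.Agent.H914.VarClass Pool.Agent.H914.VarClass.Obj Pool.Agent.R903
open Pool.Agent.R903.ChowTheory Pool.Agent.R903.WeilTheory Pool.Agent.Run7.h192.Murre
open Pool.Agent.Run7.h192.AJ

universe u v w

namespace Pool.Agent.Run7.h192.HL

variable {k : Type u} [Field k] {𝒱 : VarClass k} {C : ChowTheory.{u, v} 𝒱}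
  {W : WeilTheory.{u, v, w} C} {X Y Z : 𝒱.Obj} {D : C.CH X} {Λ : C.CH (X.prod X)}
  {π : ℕ → C.CH (X.prod X)} {E : C.CH Y} {M : C.CH (Y.prod Y)} {ρ : ℕ → C.CH (Y.prod Y)}

/-! ### transposes -/

lemma transp_sub (α β : C.CH (X.prod Y)) : C.transp (α - β) = C.transp α - C.transp β := by
  simp [ChowTheory.transp]

lemma transp_smul (c : ℚ) (α : C.CH (X.prod Y)) : C.transp (c • α) = c • C.transp α := by
  simp [ChowTheory.transp]

lemma transp_mulC : C.transp (mulC C D) = mulC C D := by
  apply C.push_injective (swap X X)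
  rw [ChowTheory.transp, C.push_pull_iso, mulC, ← C.push_comp]
  congr 2
  apply hom_ext_prod <;> simp

lemma weightC_transCK : weightC C (transCK C π) = (-1 : ℚ) • C.transp (weightC C π) := by
  rw [weightC_eq, weightC_eq, C.transp_sum, Finset.smul_sum]
  have h2 := Finset.sum_range_reflect (fun j => (-1 : ℚ) • C.transp (((j : ℚ) - X.dim) • π j))
    (2 * X.dim + 1)
  rw [← h2]
  refine Finset.sum_congr rfl fun j hj => ?_
  rw [Finset.mem_range] at hj
  have e1 : 2 * X.dim + 1 - 1 - j = 2 * X.dim - j := by omega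
  rw [transCK, if_pos (by omega), e1, transp_smul, smul_smul]
  congr 1
  push_cast [Nat.cast_sub (show j ≤ 2 * X.dim by omega)]
  ring

/-- The transposed triple. -/
theorem LefschetzTriple.transp (h : LefschetzTriple W D Λ π) :
    LefschetzTriple W D (C.transp Λ) (transCK C π) := by
  refine .of h.ck.transp h.divisor (C.transp_mem h.codim)
    (fun hd => by rw [h.point hd, C.transp_zero]) ?_ ?_ ?_
  · have h1 := congrArg C.transp h.up
    rw [transp_sub, transp_smul, ← C.comp_transp, ← C.comp_transp, transp_mulC] at h1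
    rw [weightC_transCK, C.comp_smul, C.smul_comp, ← smul_sub, ← h1, neg_one_smul, neg_sub]
  · have h1 := congrArg C.transp h.down
    rw [transp_sub, transp_smul, ← C.comp_transp, ← C.comp_transp] at h1
    rw [weightC_transCK, C.comp_smul, C.smul_comp, ← smul_sub, ← h1, neg_one_smul, neg_sub]
  · have h1 := congrArg C.transp h.rel
    rw [transp_sub, ← C.comp_transp, ← C.comp_transp, transp_mulC] at h1
    rw [weightC_transCK, ← h1, neg_one_smul, neg_sub]

/-! ### products -/

/-- `α ⊗ 1 + 1 ⊗ β` -/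
noncomputable def leib (α : C.CH (X.prod X)) (β : C.CH (Y.prod Y)) :
    C.CH ((X.prod Y).prod (X.prod Y)) :=
  C.tensor α (C.diagC Y) + C.tensor (C.diagC X) β

lemma mulC_fst : mulC C (C.pull (fst X Y) D) = C.tensor (mulC C D) (C.diagC Y) := by
  have h := C.push_kunneth (Obj.diag (X.prod Y)) (Obj.diag X) (Obj.diag Y) (fst X Y) (snd X Y)
    (prodMap (fst X Y) (fst X Y)) (prodMap (snd X Y) (snd X Y)) isIso_lift_fst_snd isIso_shuffle
    (by apply hom_ext_prod <;> simp) (by apply hom_ext_prod <;> simp) D 1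
  rw [map_one, mul_one] at h
  exact h

lemma mulC_snd : mulC C (C.pull (snd X Y) E) = C.tensor (C.diagC X) (mulC C E) := by
  have h := C.push_kunneth (Obj.diag (X.prod Y)) (Obj.diag X) (Obj.diag Y) (fst X Y) (snd X Y)
    (prodMap (fst X Y) (fst X Y)) (prodMap (snd X Y) (snd X Y)) isIso_lift_fst_snd isIso_shuffle
    (by apply hom_ext_prod <;> simp) (by apply hom_ext_prod <;> simp) 1 E
  rw [map_one, one_mul] at h
  exact h

lemma mulC_sumDiv : mulC C (sumDiv C D E) = leib (mulC C D) (mulC C E) := by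
  rw [sumDiv, addOf, leib, ← mulC_fst, ← mulC_snd, mulC, mulC, mulC, map_add]

lemma smul_tensor (c : ℚ) (α : C.CH (X.prod X)) (β : C.CH (Y.prod Y)) :
    C.tensor (c • α) β = c • C.tensor α β := by
  simp [ChowTheory.tensor]

lemma tensor_smul' (c : ℚ) (α : C.CH (X.prod X)) (β : C.CH (Y.prod Y)) :
    C.tensor α (c • β) = c • C.tensor α β := by
  simp [ChowTheory.tensor]

lemma sub_tensor (α α' : C.CH (X.prod X)) (β : C.CH (Y.prod Y)) :
    C.tensor (α - α') β = C.tensor α β - C.tensor α' β := by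
  simp [ChowTheory.tensor, sub_mul]

lemma tensor_sub (α : C.CH (X.prod X)) (β β' : C.CH (Y.prod Y)) :
    C.tensor α (β - β') = C.tensor α β - C.tensor α β' := by
  simp [ChowTheory.tensor, mul_sub]

lemma leib_comm (α α' : C.CH (X.prod X)) (β β' : C.CH (Y.prod Y)) :
    C.comp (leib α β) (leib α' β') - C.comp (leib α' β') (leib α β) =
      leib (C.comp α α' - C.comp α' α) (C.comp β β' - C.comp β' β) := by
  simp only [leib, C.add_comp, C.comp_add, C.comp_tensor, C.comp_diagC, C.diagC_comp, sub_tensor,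
    tensor_sub]
  abel

lemma leib_smul (c : ℚ) (α : C.CH (X.prod X)) (β : C.CH (Y.prod Y)) :
    leib (c • α) (c • β) = c • leib α β := by
  rw [leib, leib, smul_tensor, tensor_smul', smul_add]

lemma weightC_prodCK (h : W.IsCK X π) (h' : W.IsCK Y ρ) :
    weightC C (prodCK C π ρ) = leib (weightC C π) (weightC C ρ) := by
  have hCK := h.prod h'
  have key : ∀ m, C.comp (leib (weightC C π) (weightC C ρ)) (prodCK C π ρ m) =
      ((m : ℚ) - (X.prod Y).dim) • prodCK C π ρ m := by
    intro m
    rw [prodCK, C.comp_sum, Finset.smul_sum]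
    refine Finset.sum_congr rfl fun p hp => ?_
    rw [Finset.HasAntidiagonal.mem_antidiagonal] at hp
    rw [leib, C.add_comp, C.comp_tensor, C.comp_tensor, C.diagC_comp, C.diagC_comp,
      weightC_comp h, weightC_comp h', smul_tensor, tensor_smul', ← add_smul]
    congr 1
    rw [dim_prod, ← hp]
    push_cast
    ring
  conv_rhs => rw [← C.comp_diagC (leib (weightC C π) (weightC C ρ)), ← hCK.sum, C.comp_sum]
  rw [weightC_eq]
  exact Finset.sum_congr rfl fun m _ => (key m).symm

/-- The product triple. -/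
theorem LefschetzTriple.prod (h : LefschetzTriple W D Λ π) (h' : LefschetzTriple W E M ρ) :
    LefschetzTriple W (sumDiv C D E) (leib Λ M) (prodCK C π ρ) := by
  refine .of (h.ck.prod h'.ck) ?_ ?_ ?_ ?_ ?_ ?_
  · exact Submodule.add_mem _ (C.pull_mem _ h.divisor) (C.pull_mem _ h'.divisor)
  · refine Submodule.add_mem _ ?_ ?_
    · by_cases hd : X.dim = 0
      · rw [h.point hd, C.zero_tensor]; exact Submodule.zero_mem _
      · have h1 := C.tensor_mem h.codim (C.diagC_mem Y)
        have e : (X.prod Y).dim - 1 = X.dim - 1 + Y.dim := by rw [dim_prod]; omega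
        rwa [e]
    · by_cases hd : Y.dim = 0
      · rw [h'.point hd, C.tensor_zero]; exact Submodule.zero_mem _
      · have h1 := C.tensor_mem (C.diagC_mem X) h'.codim
        have e : (X.prod Y).dim - 1 = X.dim + (Y.dim - 1) := by rw [dim_prod]; omega
        rwa [e]
  · intro hd
    rw [dim_prod] at hd
    rw [leib, h.point (by omega), h'.point (by omega), C.zero_tensor, C.tensor_zero, add_zero]
  · rw [weightC_prodCK h.ck h'.ck, mulC_sumDiv, leib_comm, h.up, h'.up, leib_smul]
  · rw [weightC_prodCK h.ck h'.ck, leib_comm, h.down, h'.down, leib_smul]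
  · rw [weightC_prodCK h.ck h'.ck, mulC_sumDiv, leib_comm, h.rel, h'.rel]

/-! ### self-correspondences -/

theorem LefschetzTriple.lefschetz_iff (h : LefschetzTriple W D Λ π) :
    BeilinsonLefschetz W D ↔ TwoSteps W π := by
  rw [twoSteps_iff, ← h.injective_tfae, ← h.surjective_tfae]
  exact ⟨fun h1 => ⟨fun i hi => (h1 i hi).1, fun i hi => (h1 i hi).2⟩,
    fun h1 i hi => ⟨h1.1 i hi, h1.2 i hi⟩⟩

theorem lengthOne_of_twoSteps (h : W.IsCK X π) (h1 : TwoSteps W (prodCK C (transCK C π) π)) :
    LengthOne W π := by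
  intro a b γ hγ h2 h3
  by_cases ha : 2 * X.dim < a
  · rw [block, h.eq_zero ha, C.zero_comp, C.zero_comp]
  have h4 := block_homTriv h h hγ h2
  rw [block, ← act_prodCK_block h h (by omega) b γ]
  refine h1 X.dim _ _ h4.1 ?_ (by omega)
  exact Or.inr h4

theorem squareZero_of_lengthOne (h : W.IsCK X π) (h1 : LengthOne W π) : SquareZero W X := by
  have key : ∀ {γ δ : C.CH (X.prod X)} {a b c : ℕ}, HomTriv W X.dim γ → HomTriv W X.dim δ →
      C.comp (C.comp (C.comp (π a) γ) (π b)) (C.comp (C.comp (π b) δ) (π c)) = 0 := by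
    intro γ δ a b c hγ hδ
    by_cases hab : b + 1 = a
    · by_cases hbc : c + 1 = b
      · have h2 : Codim C X.dim (C.comp γ (C.comp (π b) δ)) :=
          comp_mem0 hγ.1 (comp_mem0 (h.mem b) hδ.1)
        have h3 := h1 a c _ h2 (Or.inl (by omega)) (by omega)
        rw [block] at h3
        rw [C.comp_assoc (C.comp (π a) γ), ← C.comp_assoc (π b) (C.comp (π b) δ),
          ← C.comp_assoc (π b) (π b), h.idem, ← C.comp_assoc (C.comp (π a) γ), ]
        rw [C.comp_assoc (π a) γ]
        exact h3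
      · have h3 := h1 b c δ hδ.1 (Or.inr hδ) hbc
        rw [block] at h3
        rw [h3, C.comp_zero]
    · have h3 := h1 a b γ hγ.1 (Or.inr hγ) hab
      rw [block] at h3
      rw [h3, C.zero_comp]
  intro γ δ hγ hδ
  rw [sum_blocks h (C.comp γ δ)]
  refine Finset.sum_eq_zero fun a _ => Finset.sum_eq_zero fun c _ => ?_
  have e1 : C.comp (C.comp (π a) (C.comp γ δ)) (π c) =
      ∑ b ∈ range (2 * X.dim + 1),
        C.comp (C.comp (C.comp (π a) γ) (π b)) (C.comp (C.comp (π b) δ) (π c)) := by
    have e2 : ∀ b, C.comp (C.comp (C.comp (π a) γ) (π b)) (C.comp (C.comp (π b) δ) (π c)) =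
        C.comp (C.comp (C.comp (π a) γ) (π b)) (C.comp δ (π c)) := by
      intro b
      rw [C.comp_assoc (C.comp (π a) γ), C.comp_assoc (π b) δ, ← C.comp_assoc (π b) (π b), h.idem,
        ← C.comp_assoc (C.comp (π a) γ)]
    simp only [e2]
    rw [← C.sum_comp, ← C.comp_sum, h.sum, C.comp_diagC, ← C.comp_assoc, C.comp_assoc]
  rw [e1]
  exact Finset.sum_eq_zero fun b _ => key hγ hδ

/-- from the correspondences to the cycles -/
theorem twoSteps_of_lengthOne (hP : C.Polarized) (h : W.IsCK X π) (h1 : LengthOne W π) :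
    TwoSteps W π := by
  intro i j x hx h2 h3
  by_cases hi : X.dim < i
  · have h4 : x ∈ C.gr X i := hx
    rw [C.gr_eq_bot X i hi, Submodule.mem_bot] at h4
    rw [h4, map_zero]
  obtain ⟨D, hD, hdeg⟩ := hP X
  have hpow : ∀ m, D ^ m ∈ C.gr X m := by
    intro m
    induction m with
    | zero => rw [pow_zero]; exact C.one_mem X
    | succ m ih => rw [pow_succ]; exact C.mul_mem ih hD
  have hext : Codim C X.dim (C.ext (D ^ (X.dim - i)) x) := by
    have := C.ext_mem (hpow (X.dim - i)) hx
    rwa [Nat.sub_add_cancel (by omega)] at this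
  have hne : j ≠ 2 * i ∨ HomTriv W X.dim (C.ext (D ^ (X.dim - i)) x) := by
    rcases h2 with h2 | h2
    · exact Or.inl h2
    · refine Or.inr ⟨hext, ?_⟩
      rw [ChowTheory.ext, W.cl_mul, W.cl_pull (snd X X), h2.2, map_zero, mul_zero]
  have h4 := h1 (2 * i) j _ hext hne h3
  have h5 := congrArg (fun γ => C.act γ (C.act (π (2 * i)) (D ^ i))) h4
  simp only [block] at h5
  rw [C.act_comp, C.act_comp, h.act_act, if_pos rfl, C.act_ext, map_smul, C.act_zero,
    LinearMap.zero_apply] at h5
  refine (smul_eq_zero.1 h5).resolve_left ?_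
  have hdeg' : C.deg X (C.act (π (2 * i)) (D ^ i) * D ^ (X.dim - i)) = C.deg X (D ^ X.dim) := by
    have h1 : (C.deg X (C.act (π (2 * i)) (D ^ i) * D ^ (X.dim - i)) : W.K) =
        (C.deg X (D ^ X.dim) : W.K) := by
      rw [← W.tr_cl, ← W.tr_cl, W.cl_mul, W.cl_act, h.proj _ _ _ (W.cl_mem (hpow i)), if_pos rfl,
        ← W.cl_mul, ← pow_add, Nat.add_sub_cancel' (by omega)]
    exact_mod_cast h1
  rw [hdeg']
  exact hdeg

end Pool.Agent.Run7.h192.HL
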